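import Mathlib
import Pool.Agent.helper60.FcU.Base

set_option autoImplicit false

/-!
# Definitions for the consistency of the polarized relation
-/

open Cardinal Order

namespace Pool.Agent.helper60.POS

open Pool.Agent.helper60.FcU

/-- The countable chain condition. -/
def CCC (P : Type) [Preorder P] : Prop :=
  ∀ A : Set P, (∀ p ∈ A, ∀ q ∈ A, p ≠ q → ¬ ∃ r, r ≤ p ∧ r ≤ q) → A.Countable

/-- Countable decreasing sequences have lower bounds. -/
def SigmaClosed (R : Type) [Preorder R] : Prop :=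
  ∀ f : ℕ → R, Antitone f → ∃ r, ∀ n, r ≤ f n

/-! ### The finite support iteration -/

/-- The raw conditions: finitely supported maps from `ι` to pairs (finite set of natural numbers,
finite subset of `Ω`). -/
@[ext]
structure Cnd (ι Ω : Type) where
  /-- the stems -/
  s : ι → Finset ℕ
  /-- the side conditions -/
  F : ι → Finset Ω
  fin : {j | s j ≠ ∅ ∨ F j ≠ ∅}.Finite

section

variable {ι Ω : Type} [LinearOrder ι]

/-- All coordinates of `d` from `i` on are trivial. -/
def Below (i : ι) (d : Cnd ι Ω) : Prop := ∀ j, i ≤ j → d.s j = ∅ ∧ d.F j = ∅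

variable [WellFoundedLT ι]

/-- `Coord D j p q`: (the restriction of `p` to the coordinates below `j` forces that) the `j`-th
coordinate of `p` extends that of `q`: the sets grow, and for every new `n` in `p.s j` and every
`a` in `q.F j` the set of conditions with an extension in `D j a n` is dense below `p`. -/
def Coord (D : ι → Ω → ℕ → Set (Cnd ι Ω)) (j : ι) : Cnd ι Ω → Cnd ι Ω → Prop :=
  (wellFounded_lt (α := ι)).fix (C := fun _ => Cnd ι Ω → Cnd ι Ω → Prop) (fun j ih p q =>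
    q.s j ⊆ p.s j ∧ q.F j ⊆ p.F j ∧ ∀ n ∈ p.s j, n ∉ q.s j → ∀ a ∈ q.F j,
      ∀ p', (∀ k, ∀ h : k < j, ih k h p' p) → ∃ p'', (∀ k, ∀ h : k < j, ih k h p'' p') ∧
        ∃ d ∈ D j a n, Below j d ∧ ∀ k, ∀ h : k < j, ih k h p'' d) j

theorem coord_iff (D : ι → Ω → ℕ → Set (Cnd ι Ω)) (j : ι) (p q : Cnd ι Ω) :
    Coord D j p q ↔ q.s j ⊆ p.s j ∧ q.F j ⊆ p.F j ∧ ∀ n ∈ p.s j, n ∉ q.s j → ∀ a ∈ q.F j,
      ∀ p', (∀ k, k < j → Coord D k p' p) → ∃ p'', (∀ k, k < j → Coord D k p'' p') ∧
        ∃ d ∈ D j a n, Below j d ∧ ∀ k, k < j → Coord D k p'' d := by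
  unfold Coord
  rw [WellFounded.fix_eq]

/-- The poset. -/
def Pos (_D : ι → Ω → ℕ → Set (Cnd ι Ω)) : Type := Cnd ι Ω

/-- The order of the poset. -/
def PLe (D : ι → Ω → ℕ → Set (Cnd ι Ω)) (p q : Cnd ι Ω) : Prop := ∀ j, Coord D j p q

theorem Coord.refl (D : ι → Ω → ℕ → Set (Cnd ι Ω)) (j : ι) (p : Cnd ι Ω) : Coord D j p p := by
  rw [coord_iff]
  exact ⟨Finset.Subset.refl _, Finset.Subset.refl _, fun n hn hn' => absurd hn hn'⟩

/-- Transitivity below `i`. -/
theorem Coord.trans_below (D : ι → Ω → ℕ → Set (Cnd ι Ω)) (j : ι) :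
    ∀ p q r : Cnd ι Ω, (∀ k ≤ j, Coord D k p q) → (∀ k ≤ j, Coord D k q r) → Coord D j p r := by
  induction j using WellFoundedLT.induction with
  | ind j ih =>
    intro p q r h1 h2
    have h3 := (coord_iff D j p q).1 (h1 j le_rfl)
    have h4 := (coord_iff D j q r).1 (h2 j le_rfl)
    rw [coord_iff]
    refine ⟨h4.1.trans h3.1, h4.2.1.trans h3.2.1, fun n hn hn' a ha p' hp' => ?_⟩
    by_cases hq : n ∈ q.s j
    · exact h4.2.2 n hq hn' a ha p' fun k hk => ih k hk p' p q
        (fun l hl => hp' l (hl.trans_lt hk)) (fun l hl => h1 l (hl.trans_lt hk).le)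
    · exact h3.2.2 n hn hq a (h4.2.1 ha) p' hp'

instance (D : ι → Ω → ℕ → Set (Cnd ι Ω)) : Preorder (Pos D) where
  le p q := PLe D p q
  le_refl p j := Coord.refl D j p
  le_trans p q r h h' j := Coord.trans_below D j p q r (fun k _ => h k) (fun k _ => h' k)

theorem Pos.le_def {D : ι → Ω → ℕ → Set (Cnd ι Ω)} {p q : Pos D} :
    p ≤ q ↔ ∀ j, Coord D j p q := Iff.rfl

instance (D : ι → Ω → ℕ → Set (Cnd ι Ω)) : OrderTop (Pos D) where
  top := (⟨fun _ => ∅, fun _ => ∅, by simp⟩ : Cnd ι Ω)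
  le_top p j := by
    rw [coord_iff]
    refine ⟨Finset.empty_subset _, Finset.empty_subset _, fun n _ _ a ha => ?_⟩
    exact absurd ha (Finset.notMem_empty a)

/-- The raw condition underlying a condition. -/
def Pos.raw {D : ι → Ω → ℕ → Set (Cnd ι Ω)} (p : Pos D) : Cnd ι Ω := p

/-- A raw condition as a condition. -/
def Pos.of (D : ι → Ω → ℕ → Set (Cnd ι Ω)) (d : Cnd ι Ω) : Pos D := d

/-- Bookkeeping: every family of countable sets of conditions is used at some stage beyond all the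
supports. -/
def Book (D : ι → Ω → ℕ → Set (Cnd ι Ω)) : Prop :=
  ∀ K : Ω → ℕ → Set (Cnd ι Ω), (∀ a n, (K a n).Countable) →
    ∃ i, D i = K ∧ ∀ a n, ∀ d ∈ K a n, Below i d

end

/-! ### The collapse -/

/-- Countable partial maps from `A` to `B`. -/
structure Ctp (A B : Type) where
  /-- the map -/
  f : A → Option B
  cnt : {a | f a ≠ none}.Countable

instance {A B : Type} : Preorder (Ctp A B) where
  le q p := ∀ a b, p.f a = some b → q.f a = some b
  le_refl _ _ _ h := h
  le_trans _ _ _ h h' a b hb := h a b (h' a b hb)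

instance {A B : Type} : OrderTop (Ctp A B) where
  top := ⟨fun _ => none, by simp⟩
  le_top _ _ _ h := by simp at h

/-! ### Large names of subsets of a set of size `κ = sup kj` -/

/-- It is dense below `s` to decide at least `kj j` elements of `X`, for each `j`. -/
def Big {K S : Type} [Preorder S] (kj : ℕ → Cardinal.{0}) (X : K → S → Prop) (s : S) : Prop :=
  ∀ t ≤ s, ∀ j, ∃ u ≤ t, kj j ≤ #{x : K | X x u}

/-! ### Chang's conjecture -/

/-- Chang's conjecture `(κ⁺, κ) ↠ (μ⁺, μ)`: every structure of cardinality `κ⁺` for a countable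
language, with a distinguished subset `U` of cardinality `κ`, has an elementary substructure `N` of
cardinality `μ⁺` such that `N ∩ U` has cardinality `μ`. -/
def ChangConj (κ μ : Cardinal.{0}) : Prop :=
  ∀ (𝓛 : FirstOrder.Language.{0, 0}), 𝓛.card ≤ ℵ₀ → ∀ (A : Type) [𝓛.Structure A] (U : Set A),
    #A = succ κ → #U = κ → ∃ N : 𝓛.ElementarySubstructure A,
      #N = succ μ ∧ #(↥((N : Set A) ∩ U)) = μ

/-- The algebraic form. -/
def AlgChang (κ : Cardinal.{0}) : Prop :=
  ∀ (A : Type) (U : Set A), #A = succ κ → #U = κ → ∀ f : ℕ → List A → A,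
    ∃ N : Set A, #N = ℵ₁ ∧ (N ∩ U).Countable ∧ ∀ n, ∀ l : List A, (∀ x ∈ l, x ∈ N) → f n l ∈ N

end Pool.Agent.helper60.POS
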