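import Mathlib
import Pool.Agent.helper60.PR.FormB

set_option autoImplicit false

/-!
# `ℵ_ω` inside a structure, and the sentence
-/

open FirstOrder FirstOrder.Language

namespace Pool.Agent.helper60.POS

open Pool.Agent.helper60.FcU Pool.Agent.helper60.PR

namespace Sem

variable {M : Type} (E : M → M → Prop)

/-- `k = ℵ_ω` (where `w = ω`): `k` is an uncountable cardinal, the cardinals below `k` are
cofinal in `k`, and every uncountable cardinal below `k` is a successor cardinal. -/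
def IsAlephOmega (w k : M) : Prop :=
  PR.Sem.Card E k ∧ E w k ∧ (∀ x, E x k → ∃ y, E y k ∧ PR.Sem.Card E y ∧ E x y) ∧
    ∀ x, E x k → PR.Sem.Card E x → E w x → ∃ y, PR.Sem.Next E y x

end Sem

/-- `k = ℵ_ω`. -/
def fAlephOmega {n : ℕ} (w k : Fin n) : Fm n :=
  fCard k ⊓ (fMem w k ⊓ (fBall k (fBex (up k) (fCard nw ⊓ fMem (up nw) nw)) ⊓
    fBall k (fCard nw ⟹ fMem (up w) nw ⟹ ∃' (fNext nw (up nw)))))

/-- The sentence: `ω`, `ω₁`, `ℵ_ω`, `ℵ_{ω+1}` exist, GCH holds and the polarized relation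
`(ℵ_ω, ℵ_{ω+1}) → ((ℵ_ω, ℵ_ω), (ℵ_{ω+1}, ℵ₁))` holds. -/
def fMainP : Fm 0 :=
  ∃' (∃' (∃' (∃' (fIsOmega (up (up (up nw))) ⊓ (fGCH (up (up (up nw))) ⊓
    (fNext (up (up (up nw))) (up (up nw)) ⊓ (fAlephOmega (up (up (up nw))) (up nw) ⊓
      (fNext (up nw) nw ⊓
        fPol (up nw) nw (up nw) (up nw) nw (up (up nw))))))))))

section Sat

variable {M : Type} {E : M → M → Prop} {n : ℕ} {a : Fin n → M}

theorem sat_alephOmega {w k : Fin n} :
    Sat E (fAlephOmega w k) a ↔ Sem.IsAlephOmega E (a w) (a k) := by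
  simp only [fAlephOmega, sat_and, sat_card, sat_mem, sat_ball, sat_bex, sat_imp, sat_ex,
    sat_next, sn_up, sn_nw, Sem.IsAlephOmega]

theorem sat_mainP {a : Fin 0 → M} : Sat E fMainP a ↔ ∃ w o k l, PR.Sem.IsOmega E w ∧
    PR.Sem.GCH E w ∧ PR.Sem.Next E w o ∧ Sem.IsAlephOmega E w k ∧ PR.Sem.Next E k l ∧
      PR.Sem.Pol E k l k k l o := by
  simp only [fMainP, sat_ex, sat_and, sat_isOmega, sat_gch, sat_next, sat_alephOmega, sat_pol,
    sn_up, sn_nw]

end Sat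

end Pool.Agent.helper60.POS
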