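import Mathlib
import Pool.Agent.helper91.POS.C
import Pool.Agent.helper3.POS.D
import Pool.Agent.helper60.POS.Form
import Pool.Agent.helper60.PR.GchB

set_option autoImplicit false

/-!
# Countable covering and the preservation of `ω₁`
-/

open FirstOrder FirstOrder.Language Cardinal Order

namespace Pool.Agent.helper60.POS

open Pool.Agent.helper60.FcU Pool.Agent.helper60.PR

section

variable {P R : Type} [Preorder P] [Preorder R]

/-- `ω₁` as an ordinal. -/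
noncomputable abbrev w1 : Ordinal.{0} := (ℵ₁ : Cardinal.{0}).ord

theorem exists_sup_lt_w1 {T : Type} [Countable T] (g : T → Ordinal.{0}) (hg : ∀ t, g t < w1) :
    ∃ γ < w1, ∀ t, g t < γ := by
  have h1 : ⨆ t, g t < w1 := by
    refine Ordinal.iSup_lt_of_lt_cof ?_ hg
    have h2 : w1.cof = ℵ₁ := isRegular_aleph_one.cof_ord
    rw [h2]
    exact (mk_le_aleph0 (α := T)).trans_lt aleph0_lt_aleph_one
  refine ⟨Order.succ (⨆ t, g t), ?_, fun t => ?_⟩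
  · exact (isSuccLimit_ord (aleph0_lt_aleph_one.le)).succ_lt h1
  · rw [Order.lt_succ_iff]
    exact Ordinal.le_iSup g t

/-- Countably many values are bounded in `ω₁`. -/
theorem bd (hP : CCC P) (hR : SigmaClosed R) {I : Type} [Countable I] [Nonempty I]
    (V : I → Ordinal.{0} → P × R → Prop)
    (hV : ∀ i δ s t, t ≤ s → V i δ s → V i δ t)
    (hV' : ∀ i δ δ' s, V i δ s → V i δ' s → δ = δ') (p₀ : P) (r₀ : R) :
    ∃ r ≤ r₀, ∃ γ < w1, ∀ i, ∀ u ≤ (p₀, r), ∀ δ < w1, V i δ u → δ < γ := by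
  obtain ⟨e, he⟩ := exists_surjective_nat I
  obtain ⟨r, hr, hA⟩ := easton hP hR p₀ r₀
    (fun n p r => (∃ δ < w1, V (e n) δ (p, r)) ∨ ∀ u ≤ (p, r), ∀ δ < w1, ¬ V (e n) δ u)
    (by
      rintro n p r p' r' hp hr (⟨δ, hδ, h⟩ | h)
      · exact Or.inl ⟨δ, hδ, hV _ _ _ _ ⟨hp, hr⟩ h⟩
      · exact Or.inr fun u hu => h u (hu.trans ⟨hp, hr⟩))
    (by
      intro n p _ r _
      by_cases h : ∃ u ≤ (p, r), ∃ δ < w1, V (e n) δ u
      · obtain ⟨u, hu, δ, hδ, h⟩ := h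
        exact ⟨u.1, hu.1, u.2, hu.2, Or.inl ⟨δ, hδ, h⟩⟩
      · push Not at h
        exact ⟨p, le_rfl, r, le_rfl, Or.inr fun u hu δ hδ => h u hu δ hδ⟩)
  choose A hA1 hA2 hA3 using hA
  classical
  let g : (Σ n, A n) → Ordinal.{0} := fun t =>
    if h : ∃ δ < w1, V (e t.1) δ (t.2.1, r) then h.choose else 0
  have hg : ∀ t, g t < w1 := by
    intro t
    by_cases h : ∃ δ < w1, V (e t.1) δ (t.2.1, r)
    · simp only [g, dif_pos h]
      exact h.choose_spec.1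
    · simp only [g, dif_neg h]
      exact (ord_pos.2 (aleph0_pos.trans aleph0_lt_aleph_one))
  have : ∀ n, Countable (A n) := fun n => (hA1 n).to_subtype
  obtain ⟨γ, hγ, hγ'⟩ := exists_sup_lt_w1 g hg
  refine ⟨r, hr, γ, hγ, fun i u hu δ hδ h => ?_⟩
  obtain ⟨n, rfl⟩ := he i
  obtain ⟨p, hp, t, ht, ht'⟩ := hA3 n u.1 hu.1
  have h1 : V (e n) δ (t, u.2) := hV _ _ _ _ ⟨ht, le_rfl⟩ h
  rcases (hA2 n p hp).2 with h2 | h2
  · have h3 : V (e n) (g ⟨n, p, hp⟩) (p, r) := by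
      simp only [g, dif_pos h2]
      exact h2.choose_spec.2
    have h5 : ((t, u.2) : P × R) ≤ (p, r) := ⟨ht', hu.2⟩
    have h4 := hV' _ _ _ _ h1 (hV _ _ _ (t, u.2) h5 h3)
    rw [h4]
    exact hγ' _
  · have h5 : ((t, u.2) : P × R) ≤ (p, r) := ⟨ht', hu.2⟩
    exact absurd h1 (h2 _ h5 δ hδ)

end

section

variable {P R : Type} [Preorder P] [Preorder R] [OrderTop P] [OrderTop R]

/-- No countable set is mapped onto `ω₁`. -/
theorem not_fOnto_w1 (hP : CCC P) (hR : SigmaClosed R) {β : Ordinal.{0}} (hβ : β.card ≤ ℵ₀)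
    (s : P × R) : ¬ FOnto (oN (P × R) β) (oN (P × R) w1) s := by
  intro h
  obtain ⟨t, ht, f, hf, hf'⟩ := h s le_rfl
  have hpos : (0 : Ordinal.{0}) < w1 := ord_pos.2 (aleph0_pos.trans aleph0_lt_aleph_one)
  have hne : Nonempty β.ToType := by
    obtain ⟨u, -, x, hx, -⟩ := hf' _ t le_rfl (oN_mem_oN_of_lt hpos t) t le_rfl
    rw [oN_def'] at hx
    obtain ⟨v, -, i, -⟩ := mem_ck.1 hx u le_rfl
    exact ⟨i⟩
  have : Countable β.ToType := by
    rw [← mk_le_aleph0_iff, mk_toType]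
    exact hβ
  obtain ⟨r, hr, γ, hγ, h1⟩ := bd hP hR
    (fun (i : β.ToType) (δ : Ordinal.{0}) (u : P × R) => u ≤ t ∧
      ForcesMem (opN (oN (P × R) (ord i)) (oN (P × R) δ)) f u)
    (fun i δ u v hv h => ⟨hv.trans h.1, h.2.mono hv⟩)
    (fun i δ δ' u h h' => by
      have h2 := hf.func _ _ _ u h.1 h.2 h'.2
      rwa [oN_eq_oN] at h2) t.1 t.2
  obtain ⟨u, hu, x, hx, h2⟩ := hf' _ (t.1, r) ⟨le_rfl, hr⟩ (oN_mem_oN_of_lt hγ _) (t.1, r) le_rfl
  rw [oN_def'] at hx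
  obtain ⟨v, hv, i, hi⟩ := mem_ck.1 hx u le_rfl
  have h3 := (h2.mono hv).congr_left (opN_congr hi (ForcesEq.refl _ _))
  have h4 : v ≤ (t.1, r) := hv.trans hu
  exact lt_irrefl _ (h1 i v h4 γ hγ ⟨h4.trans ⟨le_rfl, hr⟩, h3⟩)

/-- `ω₁` is preserved. -/
theorem fCard_w1 (hP : CCC P) (hR : SigmaClosed R) (s : P × R) :
    FCard (oN (P × R) w1) s := by
  refine ⟨fOr_oN _, fun x q _ hx r hr hon => ?_⟩
  obtain ⟨t, ht, β, hβ, hxβ⟩ := mem_oN.1 hx r hr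
  have h2 : β.card ≤ ℵ₀ := by
    rw [← lt_succ_iff, succ_aleph0]
    exact lt_ord.1 hβ
  exact not_fOnto_w1 hP hR h2 t ((hon.mono ht).congr_left hxβ)

end

end Pool.Agent.helper60.POS
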