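import Mathlib
import Pool.Agent.helper60.POS.Pres

set_option autoImplicit false

/-!
# The generic map `ω₁ → B`
-/

open FirstOrder FirstOrder.Language Cardinal Order

namespace Pool.Agent.helper60.POS

open Pool.Agent.helper60.FcU Pool.Agent.helper60.PR

/-- The set `ω₁`. -/
abbrev W1 : Type := (ℵ₁ : Cardinal.{0}).ord.ToType

/-- The set `ω₂`. -/
abbrev W2 : Type := (succ (ℵ₁ : Cardinal.{0})).ord.ToType

theorem mk_W1 : #W1 = ℵ₁ := mk_ord_toType _

theorem mk_W2 : #W2 = succ ℵ₁ := mk_ord_toType _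

instance : Uncountable W1 := by
  rw [← aleph0_lt_mk_iff, mk_W1]
  exact aleph0_lt_aleph_one

instance : Nonempty W2 := by
  rw [← mk_ne_zero_iff, mk_W2]
  exact (succ_ne_zero _)

variable {P B : Type} [Preorder P] [OrderTop P]

/-- The name of the composition of the generic map `ω₁ → B` with `x`. -/
noncomputable def colN (x : B → Name (P × Ctp W1 B)) : Name (P × Ctp W1 B) :=
  .mk {t : (W1 × B) × (P × Ctp W1 B) // t.2.2.f t.1.1 = some t.1.2}
    (fun t => opN (oN _ (ord t.1.1.1)) (x t.1.1.2)) (fun t => t.1.2)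

variable {x : B → Name (P × Ctp W1 B)}

theorem mem_colN {z : Name (P × Ctp W1 B)} {p : P × Ctp W1 B} :
    ForcesMem z (colN x) p ↔ ∀ q ≤ p, ∃ r ≤ q, ∃ (a : W1) (b : B), r.2.f a = some b ∧
      ForcesEq z (opN (oN _ (ord a)) (x b)) r := by
  constructor
  · intro hz q hq
    obtain ⟨r, hr, ⟨⟨⟨a, b⟩, q'⟩, hv⟩, hle, heq⟩ := hz q hq
    exact ⟨r, hr, a, b, hle.2 _ _ hv, heq⟩
  · intro hz q hq
    obtain ⟨r, hr, a, b, hv, heq⟩ := hz q hq
    exact ⟨r, hr, ⟨((a, b), r), hv⟩, le_rfl, heq⟩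

theorem mem_colN_of {a : W1} {b : B} {p : P × Ctp W1 B} (hv : p.2.f a = some b) :
    ForcesMem (opN (oN _ (ord a)) (x b)) (colN x) p :=
  mem_colN.2 fun q hq => ⟨q, le_rfl, a, b, hq.2 _ _ hv, ForcesEq.refl _ _⟩

theorem ffun_colN [Nonempty B] {c : Name (P × Ctp W1 B)} {p : P × Ctp W1 B}
    (hx : ∀ b, ForcesMem (x b) c p) : FFun (colN x) (oN _ w1) c p := by
  refine ⟨fun z q hq hz r hr => ?_, fun z q hq hz r hr => ?_, fun z y y' q _ h1 h2 => ?_⟩
  · obtain ⟨s, hs, a, b, hv, heq⟩ := mem_colN.1 hz r hr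
    exact ⟨s, hs, _, _, ord_mem a s, (hx b).mono ((hs.trans hr).trans hq), heq⟩
  · rw [oN_def'] at hz
    obtain ⟨s, hs, a, ha⟩ := mem_ck.1 hz r hr
    obtain ⟨t, ht, b, hb⟩ := s.2.exists_val a
    have h1 : ((s.1, t) : P × Ctp W1 B) ≤ s := ⟨le_rfl, ht⟩
    refine ⟨(s.1, t), h1.trans hs, x b, (hx b).mono (((h1.trans hs).trans hr).trans hq), ?_⟩
    exact (mem_colN_of (p := (s.1, t)) hb).congr_left
      (opN_congr (ha.mono h1).symm (ForcesEq.refl _ _))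
  · refine (ForcesEq.reg _ _).dense fun r hr => ?_
    obtain ⟨s, hs, a, b, hv, heq⟩ := mem_colN.1 h1 r hr
    obtain ⟨t, ht, a', b', hv', heq'⟩ := mem_colN.1 h2 s (hs.trans hr)
    rw [opN_inj] at heq heq'
    have h3 := (heq.1.mono ht).symm.trans heq'.1
    rw [oN_eq_oN, FcU.ord_inj] at h3
    subst h3
    have h4 := ht.2 _ _ hv
    rw [hv'] at h4
    cases h4
    exact ⟨t, ht.trans hs, (heq.2.mono ht).trans heq'.2.symm⟩

theorem fsurj_colN {c : Name (P × Ctp W1 B)} {p : P × Ctp W1 B}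
    (hx : ∀ y, ∀ q ≤ p, ForcesMem y c q → ∀ r ≤ q, ∃ s ≤ r, ∃ b, ForcesEq y (x b) s) :
    FSurj (colN x) (oN _ w1) c p := by
  intro y q hq hy r hr
  obtain ⟨s, hs, b, hb⟩ := hx y q hq hy r hr
  obtain ⟨t, ht, a, ha⟩ := s.2.exists_onto b
  have h1 : ((s.1, t) : P × Ctp W1 B) ≤ s := ⟨le_rfl, ht⟩
  refine ⟨(s.1, t), h1.trans hs, oN _ (ord a), ord_mem a _, ?_⟩
  exact (mem_colN_of (p := (s.1, t)) ha).congr_left
    (opN_congr (ForcesEq.refl _ _) (hb.mono h1).symm)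

/-- Nonempty sets of cardinality at most `|B|` get cardinality at most `ℵ₁`. -/
theorem fOnto_w1 [Nonempty B] {β : Ordinal.{0}} (hβ : β.card ≤ #B) (h0 : 0 < β)
    (p : P × Ctp W1 B) : FOnto (oN _ w1) (oN _ β) p := by
  have hne : Nonempty β.ToType := by
    obtain ⟨i, -⟩ := exists_ord h0
    exact ⟨i⟩
  have h1 : #β.ToType ≤ #B := by
    rw [mk_toType]
    exact hβ
  obtain ⟨e⟩ := Cardinal.le_def _ _ |>.1 h1
  intro q _
  refine ⟨q, le_rfl, colN (fun b => oN _ (ord (Function.invFun e b))),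
    ffun_colN fun b => ord_mem _ q, fsurj_colN fun y r _ hy s hs => ?_⟩
  rw [oN_def'] at hy
  obtain ⟨t, ht, j, hj⟩ := mem_ck.1 hy s hs
  obtain ⟨b, hb⟩ := Function.invFun_surjective e.injective j
  refine ⟨t, ht, b, ?_⟩
  rw [hb]
  exact hj

end Pool.Agent.helper60.POS
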