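import Mathlib
import Pool.Agent.helper60.POS.Coll

set_option autoImplicit false

/-!
# Cardinals of the extension
-/

open FirstOrder FirstOrder.Language Cardinal Order

namespace Pool.Agent.helper60.POS

open Pool.Agent.helper60.FcU Pool.Agent.helper60.PR

variable {P : Type} [Preorder P] [OrderTop P] {p : P × Ctp W1 W2}

theorem omega0_lt_w1 : Ordinal.omega0 < w1 := by
  rw [← ord_aleph0]
  exact ord_lt_ord.2 aleph0_lt_aleph_one

theorem ord_aleph1_lt {κ : Cardinal.{0}} (h : ℵ₁ < κ) : w1 < κ.ord := ord_lt_ord.2 h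

/-- The infinite cardinals of the extension. -/
theorem fCard_cases {α : Ordinal.{0}} (h : FCard (oN (P × Ctp W1 W2) α) p)
    (hα : Ordinal.omega0 ≤ α) :
    α = Ordinal.omega0 ∨ α = w1 ∨ (succ ℵ₁ < α.card ∧ α.card.ord = α) := by
  have h0 : α.card.ord = α := h.isInitial
  have h1 : ℵ₀ ≤ α.card := by
    rw [← Ordinal.card_omega0]
    exact Ordinal.card_le_card hα
  rcases h1.eq_or_lt with h2 | h2
  · left
    rw [← h0, ← h2, ord_aleph0]
  have h3 : ℵ₁ ≤ α.card := by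
    rw [← succ_aleph0]
    exact succ_le_of_lt h2
  rcases h3.eq_or_lt with h4 | h4
  · right
    left
    rw [← h0, ← h4]
  refine Or.inr (Or.inr ⟨?_, h0⟩)
  by_contra hcon
  rw [not_lt] at hcon
  have h5 : w1 < α := by
    rw [← h0]
    exact ord_lt_ord.2 h4
  exact h.2 _ p le_rfl (oN_mem_oN_of_lt h5 p) p le_rfl
    (fOnto_w1 (by rw [mk_W2]; exact hcon) (Ordinal.omega0_pos.trans_le hα) p)

/-- `ω₁` is the successor of `ω`. -/
theorem fNext_omega (hP : CCC P) (p : P × Ctp W1 W2) :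
    FNext (oN (P × Ctp W1 W2) Ordinal.omega0) (oN (P × Ctp W1 W2) w1) p := by
  refine ⟨fCard_w1 hP Ctp.sigmaClosed p, oN_mem_oN_of_lt omega0_lt_w1 p,
    fun x q hq hx r hr hc s hs => ?_⟩
  obtain ⟨t, ht, β, hβ, hxβ⟩ := mem_oN.1 hx s (hs.trans hr)
  refine ⟨t, ht, ?_⟩
  rcases lt_or_ge β Ordinal.omega0 with h1 | h1
  · left
    exact (oN_mem_oN_of_lt h1 t).congr_left hxβ.symm
  · right
    have h2 := (hc.mono (ht.trans hs)).congr hxβ
    rcases fCard_cases h2 h1 with h3 | h3 | ⟨h3, h4⟩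
    · rw [h3] at hxβ
      exact hxβ
    · rw [h3] at hβ
      exact absurd hβ (lt_irrefl _)
    · rw [← h4] at hβ
      have h5 := ord_lt_ord.1 hβ
      exact absurd ((lt_succ ℵ₁).trans h3) (not_lt.2 h5.le)

theorem fNext_unique {k l l' : Ordinal.{0}} (h : FNext (oN (P × Ctp W1 W2) k) (oN _ l) p)
    (h' : FNext (oN (P × Ctp W1 W2) k) (oN _ l') p) : l = l' := by
  have key : ∀ {l l' : Ordinal.{0}}, FNext (oN (P × Ctp W1 W2) k) (oN _ l) p →
      FNext (oN (P × Ctp W1 W2) k) (oN _ l') p → ¬ l < l' := by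
    intro l l' h h' hlt
    obtain ⟨h1, h2, -⟩ := h
    obtain ⟨-, -, h5⟩ := h'
    obtain ⟨t, -, h6⟩ := h5 _ p le_rfl (oN_mem_oN_of_lt hlt p) p le_rfl h1 p le_rfl
    rw [oN_mem_oN] at h2
    rcases h6 with h6 | h6
    · rw [oN_mem_oN] at h6
      exact lt_irrefl _ (h2.trans h6)
    · rw [oN_eq_oN] at h6
      rw [h6] at h2
      exact lt_irrefl _ h2
  exact le_antisymm (not_lt.1 (key h' h)) (not_lt.1 (key h h'))

/-- Successor cardinals of uncountable ordinals. -/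
theorem fNext_large (hS : #(P × Ctp W1 W2) ≤ succ ℵ₁) {α : Ordinal.{0}} (hα : w1 ≤ α)
    (p : P × Ctp W1 W2) : FNext (oN (P × Ctp W1 W2) α)
      (oN (P × Ctp W1 W2) (succ (max α.card (succ ℵ₁))).ord) p := by
  set μ : Cardinal.{0} := max α.card (succ ℵ₁) with hμ
  have h1 : ℵ₀ ≤ μ := aleph0_lt_aleph_one.le.trans ((le_succ _).trans (le_max_right _ _))
  have h2 : α < (succ μ).ord := by
    rw [lt_ord, lt_succ_iff]
    exact le_max_left _ _
  refine ⟨fCard_oN (hS.trans_lt (lt_succ_iff.2 (le_max_right _ _))) (h1.trans (le_succ _)),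
    oN_mem_oN_of_lt h2 p, fun x q hq hx r hr hc s hs => ?_⟩
  obtain ⟨t, ht, β, hβ, hxβ⟩ := mem_oN.1 hx s (hs.trans hr)
  refine ⟨t, ht, ?_⟩
  have h3 : β ≤ α := by
    rcases lt_or_ge β Ordinal.omega0 with h1 | h1
    · exact (h1.trans (omega0_lt_w1.trans_le hα)).le
    · have h2 := (hc.mono (ht.trans hs)).congr hxβ
      rcases fCard_cases h2 h1 with h3 | h3 | ⟨h3, h4⟩
      · rw [h3]
        exact (omega0_lt_w1.trans_le hα).le
      · rw [h3]
        exact hα
      · have h5 : β.card ≤ μ := by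
          rw [← lt_succ_iff]
          exact lt_ord.1 hβ
        rcases le_max_iff.1 h5 with h6 | h6
        · rw [← h4]
          exact (ord_le_ord.2 h6).trans (ord_card_le α)
        · exact absurd h3 (not_lt.2 h6)
  rcases h3.lt_or_eq with h4 | h4
  · exact Or.inl ((oN_mem_oN_of_lt h4 t).congr_left hxβ.symm)
  · rw [h4] at hxβ
    exact Or.inr hxβ

/-- A large cardinal has its ground model successor. -/
theorem fNext_ord (hS : #(P × Ctp W1 W2) ≤ succ ℵ₁) {κ : Cardinal.{0}} (hκ : succ ℵ₁ ≤ κ)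
    (p : P × Ctp W1 W2) : FNext (oN (P × Ctp W1 W2) κ.ord)
      (oN (P × Ctp W1 W2) (succ κ).ord) p := by
  have h1 := fNext_large hS (α := κ.ord) (ord_le_ord.2 ((le_succ _).trans hκ)) p
  rwa [card_ord, max_eq_left hκ] at h1

/-- GCH is forced. -/
theorem fo_gchS (hGCH : ∀ μ : Cardinal.{0}, ℵ₀ ≤ μ → 2 ^ μ = succ μ) (hP : CCC P)
    (hS : #(P × Ctp W1 W2) ≤ succ ℵ₁)
    (hCH : ∀ (p : P × Ctp W1 W2) (pw : Name (P × Ctp W1 W2)),
      (∀ z, ∀ q ≤ p, ForcesMem z pw q ↔ ∀ t, ∀ r ≤ q, ForcesMem t z r →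
        ForcesMem t (oN (P × Ctp W1 W2) Ordinal.omega0) r) →
      FOnto (oN (P × Ctp W1 W2) w1) pw p)
    {n : ℕ} {xs : Fin n → Name (P × Ctp W1 W2)} {w : Fin n} (hw : xs w = oN _ Ordinal.omega0)
    (p : P × Ctp W1 W2) : Fo (fGCH w) xs p := by
  unfold fGCH
  rw [fo_all]
  intro k
  rw [fo_all]
  intro l
  rw [fo_all]
  intro pw
  rw [fo_imp]
  intro q₁ _ h1
  rw [fo_imp]
  intro q₂ hq₂ h2
  rw [fo_imp]
  intro q₃ hq₃ h3
  rw [fo_imp]
  intro q₄ hq₄ h4
  rw [fo_card] at h1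
  rw [fo_or] at h2
  rw [fo_next] at h3
  unfold fPow at h4
  rw [fo_all] at h4
  simp only [fo_iff, fo_mem, fo_sub, fo_eq, sn_up, sn_nw] at h1 h2 h3 h4
  rw [fo_onto]
  simp only [sn_up, sn_nw]
  refine fun q hq => ?_
  have hq1 : q ≤ q₁ := ((hq.trans hq₄).trans hq₃).trans hq₂
  obtain ⟨r, hr, α, hα⟩ := exists_oN_eq k q (h1.mono hq1).1
  obtain ⟨s, hs, β, hβ⟩ := exists_oN_eq l r (h3.mono ((hr.trans hq).trans hq₄)).1.1
  obtain ⟨t, ht, h5⟩ := h2 s (((hs.trans hr).trans hq).trans (hq₄.trans hq₃))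
  have htq₄ : t ≤ q₄ := ((ht.trans hs).trans hr).trans hq
  have hωα : Ordinal.omega0 ≤ α := by
    rw [hw] at h5
    rcases h5 with h5 | h5
    · have h6 := h5.congr_right (hα.mono (ht.trans hs))
      rw [oN_mem_oN] at h6
      exact h6.le
    · have h6 := h5.trans (hα.mono (ht.trans hs))
      rw [oN_eq_oN] at h6
      exact h6.le
  have h6 : FNext (oN (P × Ctp W1 W2) α) (oN (P × Ctp W1 W2) β) t :=
    (h3.mono (htq₄.trans hq₄)).congr (hα.mono (ht.trans hs)) (hβ.mono ht)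
  have hFα : FCard (oN (P × Ctp W1 W2) α) t :=
    (h1.mono (htq₄.trans (hq₄.trans (hq₃.trans hq₂)))).congr (hα.mono (ht.trans hs))
  have hpw : ∀ z, ∀ q' ≤ t, ForcesMem z pw q' ↔ ∀ x, ∀ r' ≤ q', ForcesMem x z r' →
      ForcesMem x (oN (P × Ctp W1 W2) α) r' := by
    intro z q' hq'
    rw [h4 z q' (hq'.trans htq₄)]
    have h9 : ForcesEq k (oN (P × Ctp W1 W2) α) q' := hα.mono ((hq'.trans ht).trans hs)
    constructor
    · intro h x r' hr' hx
      exact (h x r' hr' hx).congr_right (h9.mono hr')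
    · intro h x r' hr' hx
      exact (h x r' hr' hx).congr_right (h9.mono hr').symm
  have h8 : FOnto (oN (P × Ctp W1 W2) β) pw t := by
    rcases hωα.eq_or_lt with h7 | h7
    · rw [← h7] at h6 hpw
      rw [fNext_unique h6 (fNext_omega hP t)]
      exact hCH t pw hpw
    · have h8 : w1 ≤ α := by
        rcases fCard_cases hFα hωα with h9 | h9 | ⟨h9, h10⟩
        · rw [h9] at h7
          exact absurd h7 (lt_irrefl _)
        · exact h9.ge
        · rw [← h10]
          exact ord_le_ord.2 ((le_succ _).trans h9.le)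
      rw [fNext_unique h6 (fNext_large hS h8 t)]
      refine fOnto_pow (α := α) ?_ hpw
      have hμ : ℵ₀ ≤ max α.card (succ ℵ₁) :=
        aleph0_lt_aleph_one.le.trans ((le_succ _).trans (le_max_right _ _))
      rw [mk_set, ← hGCH _ hμ]
      refine power_le_power_left two_ne_zero ?_
      rw [mk_prod, lift_id, lift_id, mk_toType]
      refine (mul_le_mul' (le_max_left α.card (succ ℵ₁)) (hS.trans (le_max_right α.card _))).trans ?_
      exact (mul_eq_self hμ).le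
  obtain ⟨v, hv, f, hf1, hf2⟩ := h8.congr_left (hβ.mono ht).symm t le_rfl
  exact ⟨v, ((hv.trans ht).trans hs).trans hr, f, hf1, hf2⟩

end Pool.Agent.helper60.POS
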