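import Mathlib
import Pool.Agent.helper60.POS.CardS

set_option autoImplicit false

/-!
# The continuum hypothesis in the extension
-/

open FirstOrder FirstOrder.Language Cardinal Order

namespace Pool.Agent.helper60.POS

open Pool.Agent.helper60.FcU Pool.Agent.helper60.PR

section

variable {P R : Type} [Preorder P] [OrderTop P] [Preorder R] [OrderTop R] {s : P × R}

/-- The name of a set of natural numbers given by sets of conditions of `P`. -/
noncomputable def rN (R : Type) [Preorder R] [OrderTop R]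
    (N : Ordinal.omega0.{0}.ToType → Set P) : Name (P × R) :=
  subN {t : Ordinal.omega0.{0}.ToType × (P × R) | t.2.1 ∈ N t.1 ∧ t.2.2 = ⊤}

theorem mem_rN {N : Ordinal.omega0.{0}.ToType → Set P} {z : Name (P × R)} :
    ForcesMem z (rN R N) s ↔ ∀ q ≤ s, ∃ r ≤ q, ∃ i, ∃ c ∈ N i, r.1 ≤ c ∧
      ForcesEq z (oN (P × R) (ord i)) r := by
  unfold rN
  rw [mem_subN]
  constructor
  · intro h q hq
    obtain ⟨r, hr, i, c, hic, hle, heq⟩ := h q hq
    exact ⟨r, hr, i, c.1, hic.1, hle.1, heq⟩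
  · intro h q hq
    obtain ⟨r, hr, i, c, hic, hle, heq⟩ := h q hq
    exact ⟨r, hr, i, (c, ⊤), ⟨hic, rfl⟩, ⟨hle, le_top⟩, heq⟩

/-- Every name of a set of natural numbers is densely equal to such a name. -/
theorem exists_rN (hP : CCC P) (hR : SigmaClosed R) {y : Name (P × R)}
    (hy : ∀ z, ∀ q ≤ s, ForcesMem z y q → ForcesMem z (oN (P × R) Ordinal.omega0) q) :
    ∃ t ≤ s, ∃ N : Ordinal.omega0.{0}.ToType → Set P, (∀ i, (N i).Countable) ∧
      ForcesEq y (rN R N) t := by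
  have hc : Countable Ordinal.omega0.{0}.ToType := by
    rw [← mk_le_aleph0_iff, mk_toType, Ordinal.card_omega0]
  have hne : Nonempty Ordinal.omega0.{0}.ToType := by
    obtain ⟨i, -⟩ := exists_ord Ordinal.omega0_pos
    exact ⟨i⟩
  obtain ⟨e, he⟩ := exists_surjective_nat Ordinal.omega0.{0}.ToType
  obtain ⟨r, hr, hA⟩ := easton hP hR s.1 s.2
    (fun n p r => ForcesMem (oN (P × R) (ord (e n))) y (p, r) ∨
      ∀ u ≤ (p, r), ¬ ForcesMem (oN (P × R) (ord (e n))) y u)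
    (by
      rintro n p r p' r' hp hr (h | h)
      · have h1 : ((p', r') : P × R) ≤ (p, r) := ⟨hp, hr⟩
        exact Or.inl (h.mono h1)
      · exact Or.inr fun u hu => h u (hu.trans ⟨hp, hr⟩))
    (by
      intro n p _ r _
      by_cases h : ∃ u ≤ (p, r), ForcesMem (oN (P × R) (ord (e n))) y u
      · obtain ⟨u, hu, h⟩ := h
        exact ⟨u.1, hu.1, u.2, hu.2, Or.inl h⟩
      · push Not at h
        exact ⟨p, le_rfl, r, le_rfl, Or.inr h⟩)
  choose A hA1 hA2 hA3 using hA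
  let g : Ordinal.omega0.{0}.ToType → ℕ := Function.surjInv he
  have hg : ∀ i, e (g i) = i := Function.surjInv_eq he
  have ht : ((s.1, r) : P × R) ≤ s := ⟨le_rfl, hr⟩
  refine ⟨(s.1, r), ht, fun i => {p | p ∈ A (g i) ∧ ForcesMem (oN (P × R) (ord i)) y (p, r)},
    fun i => (hA1 (g i)).mono fun p hp => hp.1, ForcesEq.ext (fun z u hu hz => ?_)
      (fun z u hu hz => ?_)⟩
  · refine mem_rN.2 fun q hq => ?_
    have h1 := hy z q ((hq.trans hu).trans ht) (hz.mono hq)
    rw [oN_def'] at h1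
    obtain ⟨v, hv, i, hi⟩ := mem_ck.1 h1 q le_rfl
    have h2 : ForcesMem (oN (P × R) (ord i)) y v := (hz.mono (hv.trans hq)).congr_left hi
    have h3 : v ≤ (s.1, r) := (hv.trans hq).trans hu
    obtain ⟨p, hp, t', ht1, ht2⟩ := hA3 (g i) v.1 h3.1
    have h4 : ((t', v.2) : P × R) ≤ v := ⟨ht1, le_rfl⟩
    refine ⟨(t', v.2), h4.trans hv, i, p, ⟨hp, ?_⟩, ht2, hi.mono h4⟩
    have h5 := (hA2 (g i) p hp).2
    rw [hg] at h5
    rcases h5 with h5 | h5
    · exact h5
    · have h6 : ((t', v.2) : P × R) ≤ (p, r) := ⟨ht2, h3.2⟩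
      exact absurd (h2.mono h4) (h5 _ h6)
  · refine (ForcesMem.reg _ _).dense fun q hq => ?_
    obtain ⟨v, hv, i, c, hc, hle, heq⟩ := mem_rN.1 hz q hq
    have h3 : v ≤ (s.1, r) := (hv.trans hq).trans hu
    have h4 : v ≤ (c, r) := ⟨hle, h3.2⟩
    exact ⟨v, hv, (hc.2.mono h4).congr_left heq.symm⟩

end

/-- `ℵ₂ ^ ℵ₀ = ℵ₂`. -/
theorem aleph2_power (hGCH : ∀ μ : Cardinal.{0}, ℵ₀ ≤ μ → 2 ^ μ = succ μ) :
    (succ ℵ₁ : Cardinal.{0}) ^ ℵ₀ = succ ℵ₁ := by
  rw [← hGCH _ aleph0_lt_aleph_one.le, ← power_mul, mul_eq_left aleph0_lt_aleph_one.le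
    aleph0_lt_aleph_one.le aleph0_ne_zero]

/-- CH holds in the extension. -/
theorem fOnto_pow_omega (hGCH : ∀ μ : Cardinal.{0}, ℵ₀ ≤ μ → 2 ^ μ = succ μ)
    {P : Type} [Preorder P] [OrderTop P] (hP : CCC P) (hS : #P ≤ succ ℵ₁)
    (p : P × Ctp W1 W2) (pw : Name (P × Ctp W1 W2))
    (hpw : ∀ z, ∀ q ≤ p, ForcesMem z pw q ↔ ∀ t, ∀ r ≤ q, ForcesMem t z r →
        ForcesMem t (oN (P × Ctp W1 W2) Ordinal.omega0) r) :
    FOnto (oN (P × Ctp W1 W2) w1) pw p := by
  have h1 : #{N : Ordinal.omega0.{0}.ToType → Set P // ∀ i, (N i).Countable} ≤ #W2 := by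
    have h2 : #{N : Ordinal.omega0.{0}.ToType → Set P // ∀ i, (N i).Countable} ≤
        #(Ordinal.omega0.{0}.ToType → {T : Set P // #T ≤ ℵ₀}) := by
      refine mk_le_of_injective (f := fun N i => ⟨N.1 i, (N.2 i).le_aleph0⟩) fun N N' h => ?_
      apply Subtype.ext
      funext i
      exact congrArg Subtype.val (congrFun h i)
    refine h2.trans ?_
    rw [mk_arrow, lift_id, lift_id, mk_toType, Ordinal.card_omega0, mk_W2,
      ← aleph2_power hGCH]
    refine power_le_power_right ?_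
    refine (mk_bounded_set_le _ _).trans ?_
    refine (power_le_power_right (max_le hS ?_)).trans (aleph2_power hGCH).le
    exact aleph0_lt_aleph_one.le.trans (le_succ _)
  obtain ⟨e'⟩ := Cardinal.le_def _ _ |>.1 h1
  have hne : Nonempty {N : Ordinal.omega0.{0}.ToType → Set P // ∀ i, (N i).Countable} :=
    ⟨⟨fun _ => ∅, fun _ => Set.countable_empty⟩⟩
  let e := Function.invFun e'
  have he : Function.Surjective e := Function.invFun_surjective e'.injective
  intro q hq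
  refine ⟨q, le_rfl, colN (fun b => rN _ (e b).1), ffun_colN fun b => ?_,
    fsurj_colN fun y r hr hy s hs => ?_⟩
  · exact (hpw _ q hq).2 fun t r _ ht => subN_sub ht
  · have h2 := (hpw y r (hr.trans hq)).1 hy
    obtain ⟨t, ht, N, hN, h3⟩ := exists_rN (s := s) hP Ctp.sigmaClosed
      (fun z u hu hz => h2 z u (hu.trans hs) hz)
    obtain ⟨b, hb⟩ := he ⟨N, hN⟩
    refine ⟨t, ht, b, ?_⟩
    rw [hb]
    exact h3

end Pool.Agent.helper60.POS
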