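import Mathlib
import Pool.Agent.helper60.POS.CH

set_option autoImplicit false

/-!
# `ℵ_ω` in the extension
-/

open FirstOrder FirstOrder.Language Cardinal Order

namespace Pool.Agent.helper60.POS

open Pool.Agent.helper60.FcU Pool.Agent.helper60.PR

/-- `ℵ_ω`. -/
noncomputable abbrev aw : Cardinal.{0} := ℵ_ Ordinal.omega0

theorem exists_nat_of_lt_aw {μ : Cardinal.{0}} (h : μ < aw) (h0 : ℵ₀ ≤ μ) :
    ∃ n : ℕ, μ = ℵ_ (n : Ordinal.{0}) := by
  obtain ⟨o, rfl⟩ := mem_range_aleph_iff.2 h0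
  obtain ⟨n, rfl⟩ := Ordinal.lt_omega0.1 (aleph_lt_aleph.1 h)
  exact ⟨n, rfl⟩

theorem aleph_nat_lt_aw (n : ℕ) : ℵ_ (n : Ordinal.{0}) < aw :=
  aleph_lt_aleph.2 (Ordinal.natCast_lt_omega0 n)

theorem aleph_nat_succ (n : ℕ) : succ (ℵ_ (n : Ordinal.{0})) = ℵ_ ((n + 1 : ℕ) : Ordinal.{0}) := by
  rw [succ_aleph]
  norm_cast

theorem aleph0_le_aw : ℵ₀ ≤ aw := aleph0_le_aleph _

theorem aleph0_lt_aw : ℵ₀ < aw := aleph0_lt_aleph.2 Ordinal.omega0_pos

theorem succ_lt_aw {μ : Cardinal.{0}} (h : μ < aw) : succ μ < aw := by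
  rcases lt_or_ge μ ℵ₀ with h0 | h0
  · exact (succ_le_of_lt h0).trans_lt aleph0_lt_aw
  · obtain ⟨n, rfl⟩ := exists_nat_of_lt_aw h h0
    rw [aleph_nat_succ]
    exact aleph_nat_lt_aw _

theorem succ_aleph1_lt_aw : succ ℵ₁ < aw := by
  refine succ_lt_aw ?_
  simp

theorem two_power_lt_aw (hGCH : ∀ μ : Cardinal.{0}, ℵ₀ ≤ μ → 2 ^ μ = succ μ) {μ : Cardinal.{0}}
    (h : μ < aw) : 2 ^ μ < aw := by
  rcases lt_or_ge μ ℵ₀ with h0 | h0
  · exact (power_lt_aleph0 (natCast_lt_aleph0 (n := 2)) h0).trans aleph0_lt_aw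
  · rw [hGCH μ h0]
    exact succ_lt_aw h

variable {P : Type} [Preorder P] [OrderTop P]

theorem fo_alephOmega (hP : CCC P) (hS : #(P × Ctp W1 W2) ≤ succ ℵ₁) {n : ℕ}
    {xs : Fin n → Name (P × Ctp W1 W2)} {w k : Fin n} (hw : xs w = oN _ Ordinal.omega0)
    (hk : xs k = oN _ aw.ord) (p : P × Ctp W1 W2) : Fo (fAlephOmega w k) xs p := by
  have hSaw : #(P × Ctp W1 W2) < aw := hS.trans_lt succ_aleph1_lt_aw
  unfold fAlephOmega
  rw [fo_and, fo_and, fo_and]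
  refine ⟨?_, ?_, ?_, ?_⟩
  · rw [fo_card, hk]
    exact fCard_oN hSaw aleph0_le_aw
  · rw [fo_mem, hw, hk, oN_mem_oN, ← ord_aleph0]
    exact ord_lt_ord.2 aleph0_lt_aw
  · rw [fo_ball_oN hk]
    intro β hβ
    have hβ' : β.card < aw := lt_ord.1 hβ
    rw [fo_bex_oN (o := aw.ord) (by rw [sn_up, hk])]
    intro q hq
    have h1 : max β.card (succ ℵ₁) < aw := max_lt hβ' succ_aleph1_lt_aw
    refine ⟨q, le_rfl, (succ (max β.card (succ ℵ₁))).ord, ord_lt_ord.2 (succ_lt_aw h1), ?_⟩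
    rw [fo_and, fo_card, fo_mem]
    simp only [sn_up, sn_nw]
    refine ⟨fCard_oN (hS.trans_lt (lt_succ_iff.2 (le_max_right _ _))) ?_, ?_⟩
    · exact (aleph0_lt_aleph_one.le.trans ((le_succ _).trans (le_max_right _ _))).trans (le_succ _)
    · rw [oN_mem_oN, lt_ord, lt_succ_iff]
      exact le_max_left _ _
  · rw [fo_ball_oN hk]
    intro β hβ
    have hβ' : β.card < aw := lt_ord.1 hβ
    rw [fo_imp]
    intro q₁ _ h1
    rw [fo_imp]
    intro q₂ hq₂ h2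
    rw [fo_card] at h1
    rw [fo_mem] at h2
    simp only [sn_up, sn_nw] at h1 h2
    rw [hw, oN_mem_oN] at h2
    rcases fCard_cases h1 h2.le with h3 | h3 | ⟨h3, h4⟩
    · rw [h3] at h2
      exact absurd h2 (lt_irrefl _)
    · refine fo_ex_of (oN _ Ordinal.omega0) ?_
      rw [fo_next]
      simp only [sn_up, sn_nw]
      rw [h3]
      exact fNext_omega hP q₂
    · obtain ⟨m, hm⟩ := exists_nat_of_lt_aw hβ' (aleph0_lt_aleph_one.le.trans
        ((le_succ _).trans h3.le))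
      obtain ⟨m', rfl⟩ : ∃ m', m = m' + 1 := by
        cases m with
        | zero =>
          rw [hm] at h3
          have h5 : (succ ℵ₁ : Cardinal.{0}) < ℵ₀ := by simpa using h3
          exact absurd (aleph0_lt_aleph_one.le.trans (le_succ _)) (not_le.2 h5)
        | succ m' => exact ⟨m', rfl⟩
      rw [← aleph_nat_succ] at hm
      refine fo_ex_of (oN _ (ℵ_ (m' : Ordinal.{0})).ord) ?_
      rw [fo_next]
      simp only [sn_up, sn_nw]
      rw [← h4, hm]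
      refine fNext_ord hS ?_ q₂
      rw [hm] at h3
      exact lt_succ_iff.1 h3

end Pool.Agent.helper60.POS
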