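import Mathlib
import Pool.Agent.helper60.POS.Pres

set_option autoImplicit false
set_option linter.unusedSectionVars false

/-!
# Enumerating a name for a set of ordinals in increasing order
-/

open FirstOrder FirstOrder.Language Cardinal Order

namespace Pool.Agent.helper60.POS

open Pool.Agent.helper60.FcU Pool.Agent.helper60.PR

section

variable {S : Type} [Preorder S] [OrderTop S] {I : Type} [LinearOrder I] [WellFoundedLT I]

/-- The Mostowski collapse of the set `X ∩ a`. -/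
noncomputable def cN (X : I → S → Prop) (a : I) : Name S :=
  (wellFounded_lt (α := I)).fix (C := fun _ => Name S) (fun a ih =>
    .mk {t : I × S // t.1 < a ∧ X t.1 t.2} (fun t => ih t.1.1 t.2.1) (fun t => t.1.2)) a

theorem cN_def (X : I → S → Prop) (a : I) : cN X a =
    .mk {t : I × S // t.1 < a ∧ X t.1 t.2} (fun t => cN X t.1.1) (fun t => t.1.2) := by
  unfold cN
  rw [WellFounded.fix_eq]

/-- The Mostowski collapse of the set `X`. -/
noncomputable def cA (X : I → S → Prop) : Name S :=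
  .mk {t : I × S // X t.1 t.2} (fun t => cN X t.1.1) (fun t => t.1.2)

/-- The image of `X` under `x`. -/
def imN (X : I → S → Prop) (x : I → Name S) : Name S :=
  .mk {t : I × S // X t.1 t.2} (fun t => x t.1.1) (fun t => t.1.2)

variable {X : I → S → Prop} (hX : ∀ a, Reg (X a))

include hX in
theorem mem_cN {a : I} {z : Name S} {s : S} : ForcesMem z (cN X a) s ↔
    ∀ q ≤ s, ∃ r ≤ q, ∃ b < a, X b r ∧ ForcesEq z (cN X b) r := by
  rw [cN_def]
  constructor
  · intro h q hq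
    obtain ⟨r, hr, ⟨⟨b, t⟩, hb, ht⟩, hle, heq⟩ := h q hq
    exact ⟨r, hr, b, hb, (hX b).mono hle ht, heq⟩
  · intro h q hq
    obtain ⟨r, hr, b, hb, ht, heq⟩ := h q hq
    exact ⟨r, hr, ⟨(b, r), hb, ht⟩, le_rfl, heq⟩

omit [LinearOrder I] [WellFoundedLT I] in
include hX in
theorem mem_imN {x : I → Name S} {z : Name S} {s : S} : ForcesMem z (imN X x) s ↔
    ∀ q ≤ s, ∃ r ≤ q, ∃ b, X b r ∧ ForcesEq z (x b) r := by
  constructor
  · intro h q hq
    obtain ⟨r, hr, ⟨⟨b, t⟩, ht⟩, hle, heq⟩ := h q hq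
    exact ⟨r, hr, b, (hX b).mono hle ht, heq⟩
  · intro h q hq
    obtain ⟨r, hr, b, ht, heq⟩ := h q hq
    exact ⟨r, hr, ⟨(b, r), ht⟩, le_rfl, heq⟩

theorem cA_eq : cA X = imN X (cN X) := rfl

omit [LinearOrder I] [WellFoundedLT I] in
theorem mem_imN_of {x : I → Name S} {a : I} {s : S} (h : X a s) : ForcesMem (x a) (imN X x) s := by
  intro q hq
  exact ⟨q, le_rfl, ⟨(a, s), h⟩, hq, ForcesEq.refl _ _⟩

include hX in
theorem cN_mem_cN {a b : I} (hab : a < b) {s : S} (h : X a s) :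
    ForcesMem (cN X a) (cN X b) s :=
  (mem_cN hX).2 fun q hq => ⟨q, le_rfl, a, hab, (hX a).mono hq h, ForcesEq.refl _ _⟩

include hX in
theorem fTr_cN (a : I) (s : S) : FTr (cN X a) s := by
  intro y q _ hy z r hr hz
  refine (mem_cN hX).2 fun u hu => ?_
  obtain ⟨v, hv, b, hb, -, heq⟩ := (mem_cN hX).1 hy u (hu.trans hr)
  obtain ⟨w, hw, c, hc, h1, heq'⟩ :=
    (mem_cN hX).1 ((hz.mono (hv.trans hu)).congr_right heq) v le_rfl
  exact ⟨w, hw.trans hv, c, hc.trans hb, h1, heq'⟩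

theorem ftr_congr {x y : Name S} {s : S} (h : ForcesEq x y s) (hx : FTr x s) : FTr y s := by
  intro z q hq hz w r hr hw
  exact (hx z q hq (hz.congr_right (h.mono hq).symm) w r hr hw).congr_right (h.mono (hr.trans hq))

theorem ftr_dense {x : Name S} {s : S} (h : ∀ q ≤ s, ∃ r ≤ q, FTr x r) : FTr x s := by
  intro z q hq hz w r hr hw
  refine (ForcesMem.reg _ _).dense fun u hu => ?_
  obtain ⟨v, hv, h1⟩ := h u ((hu.trans hr).trans hq)
  exact ⟨v, hv, h1 z v le_rfl (hz.mono ((hv.trans hu).trans hr)) w v le_rfl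
    (hw.mono (hv.trans hu))⟩

include hX in
theorem fOr_cN (a : I) (s : S) : FOr (cN X a) s := by
  refine ⟨fTr_cN hX a s, fun y q hq hy => ftr_dense fun r hr => ?_⟩
  obtain ⟨u, hu, b, -, -, heq⟩ := (mem_cN hX).1 hy r hr
  exact ⟨u, hu, ftr_congr heq.symm (fTr_cN hX b u)⟩

include hX in
theorem fOr_cA (s : S) : FOr (cA X) s := by
  rw [cA_eq]
  constructor
  · intro y q _ hy z r hr hz
    refine (mem_imN hX).2 fun u hu => ?_
    obtain ⟨v, hv, b, -, heq⟩ := (mem_imN hX).1 hy u (hu.trans hr)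
    obtain ⟨w, hw, c, -, h1, heq'⟩ :=
      (mem_cN hX).1 ((hz.mono (hv.trans hu)).congr_right heq) v le_rfl
    exact ⟨w, hw.trans hv, c, h1, heq'⟩
  · refine fun y q hq hy => ftr_dense fun r hr => ?_
    obtain ⟨u, hu, b, -, heq⟩ := (mem_imN hX).1 hy r hr
    exact ⟨u, hu, ftr_congr heq.symm (fTr_cN hX b u)⟩

/-- An ordinal is not an element of itself. -/
theorem not_mem_self {x : Name S} {s : S} (h : FOr x s) : ¬ ForcesMem x x s := by
  intro hx
  obtain ⟨q, hq, α, hα⟩ := exists_oN_eq x s h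
  have h1 := ((hx.mono hq).congr_left hα).congr_right hα
  rw [oN_mem_oN] at h1
  exact lt_irrefl _ h1

include hX in
/-- The collapse is injective on `X`. -/
theorem cN_inj {a b : I} {s : S} (ha : X a s) (hb : X b s) (h : ForcesEq (cN X a) (cN X b) s) :
    a = b := by
  rcases lt_trichotomy a b with h1 | h1 | h1
  · exact absurd ((cN_mem_cN hX h1 ha).congr_left h) (not_mem_self (fOr_cN hX b s))
  · exact h1
  · exact absurd ((cN_mem_cN hX h1 hb).congr_left h.symm) (not_mem_self (fOr_cN hX a s))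

/-- The name of the bijection. -/
noncomputable def mosN (X : I → S → Prop) (x : I → Name S) : Name S :=
  imN X (fun a => opN (x a) (cN X a))

include hX in
theorem ffun_mosN {x : I → Name S} (hx : ∀ a b s, ForcesEq (x a) (x b) s → a = b) (s : S) :
    FFun (mosN X x) (imN X x) (cA X) s := by
  refine ⟨fun z q _ hz r hr => ?_, fun z q hq hz r hr => ?_, fun z y y' q _ h1 h2 => ?_⟩
  · obtain ⟨u, hu, b, hb, heq⟩ := (mem_imN hX).1 hz r hr
    exact ⟨u, hu, _, _, mem_imN_of hb, mem_imN_of hb, heq⟩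
  · obtain ⟨u, hu, b, hb, heq⟩ := (mem_imN hX).1 hz r hr
    refine ⟨u, hu, cN X b, mem_imN_of hb, ?_⟩
    exact (mem_imN_of (x := fun a => opN (x a) (cN X a)) hb).congr_left
      (opN_congr heq.symm (ForcesEq.refl _ _))
  · refine (ForcesEq.reg _ _).dense fun r hr => ?_
    obtain ⟨u, hu, b, hb, heq⟩ := (mem_imN hX).1 h1 r hr
    obtain ⟨v, hv, c, hc, heq'⟩ := (mem_imN hX).1 h2 u (hu.trans hr)
    rw [opN_inj] at heq heq'
    have h3 := hx _ _ _ ((heq.1.mono hv).symm.trans heq'.1)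
    subst h3
    exact ⟨v, hv.trans hu, (heq.2.mono hv).trans heq'.2.symm⟩

include hX in
theorem finj_mosN {x : I → Name S} (s : S) : FInj (mosN X x) s := by
  intro z z' y q _ h1 h2
  refine (ForcesEq.reg _ _).dense fun r hr => ?_
  obtain ⟨u, hu, b, hb, heq⟩ := (mem_imN hX).1 h1 r hr
  obtain ⟨v, hv, c, hc, heq'⟩ := (mem_imN hX).1 h2 u (hu.trans hr)
  rw [opN_inj] at heq heq'
  have h3 := cN_inj hX ((hX b).mono hv hb) hc ((heq.2.mono hv).symm.trans heq'.2)
  subst h3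
  exact ⟨v, hv.trans hu, (heq.1.mono hv).trans heq'.1.symm⟩

include hX in
theorem fsurj_mosN {x : I → Name S} (s : S) : FSurj (mosN X x) (imN X x) (cA X) s := by
  intro y q _ hy r hr
  obtain ⟨u, hu, b, hb, heq⟩ := (mem_imN hX).1 hy r hr
  refine ⟨u, hu, x b, mem_imN_of hb, ?_⟩
  exact (mem_imN_of (x := fun a => opN (x a) (cN X a)) hb).congr_left
    (opN_congr (ForcesEq.refl _ _) heq.symm)

include hX in
/-- If the values of the collapse are in `μ` and the collapse is not smaller than `μ`, then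
it is `μ`. -/
theorem cA_eq_oN {μ : Ordinal.{0}} {s : S}
    (hsmall : ∀ a, ∀ t ≤ s, ∀ γ, X a t → ForcesEq (cN X a) (oN S γ) t → γ < μ)
    (hlarge : ∀ t ≤ s, ∀ γ, ForcesEq (cA X) (oN S γ) t → μ ≤ γ) :
    ForcesEq (cA X) (oN S μ) s := by
  refine (ForcesEq.reg _ _).dense fun q hq => ?_
  obtain ⟨r, hr, γ, hγ⟩ := exists_oN_eq (cA X) q (fOr_cA hX q)
  refine ⟨r, hr, ?_⟩
  rcases (hlarge r (hr.trans hq) γ hγ).eq_or_lt with h | h
  · rw [h]
    exact hγ
  · exfalso
    have h1 : ForcesMem (oN S μ) (cA X) r :=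
      (oN_mem_oN_of_lt h r).congr_right hγ.symm
    obtain ⟨u, hu, b, hb, heq⟩ := (mem_imN hX).1 h1 r le_rfl
    exact lt_irrefl _ (hsmall b u ((hu.trans hr).trans hq) μ hb heq.symm)

include hX in
/-- The bijection. -/
theorem exists_equip {μ : Ordinal.{0}} {s : S} {x : I → Name S}
    (hx : ∀ a b s, ForcesEq (x a) (x b) s → a = b)
    (hsmall : ∀ a, ∀ t ≤ s, ∀ γ, X a t → ForcesEq (cN X a) (oN S γ) t → γ < μ)
    (hlarge : ∀ t ≤ s, ∀ γ, ForcesEq (cA X) (oN S γ) t → μ ≤ γ) :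
    ∀ q ≤ s, ∃ r ≤ q, ∃ f, FFun f (imN X x) (oN S μ) r ∧ FInj f r ∧
      FSurj f (imN X x) (oN S μ) r := by
  intro q hq
  have h := (cA_eq_oN hX hsmall hlarge).mono hq
  exact ⟨q, le_rfl, mosN X x, FFun.congr_cod h (ffun_mosN hX hx q), finj_mosN hX q,
    (fun y r hr hy u hu => fsurj_mosN hX q y r hr (hy.congr_right (h.mono hr).symm) u hu)⟩

end

end Pool.Agent.helper60.POS
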