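import Mathlib
import Pool.Agent.helper60.POS.Mos

set_option autoImplicit false
set_option linter.unusedSectionVars false

/-!
# Sizes of names of sets of ordinals
-/

open FirstOrder FirstOrder.Language Cardinal Order

namespace Pool.Agent.helper60.POS

open Pool.Agent.helper60.FcU Pool.Agent.helper60.PR

section Large

variable {S : Type} [Preorder S] [OrderTop S] {κ : Cardinal.{0}}
  {X : κ.ord.ToType → S → Prop} (hX : ∀ a, Reg (X a))

include hX in
theorem small_ord (hκ : ℵ₀ ≤ κ) (hS : #S < κ) (a : κ.ord.ToType) (t : S) (γ : Ordinal.{0})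
    (h : ForcesEq (cN X a) (oN S γ) t) : γ < κ.ord := by
  have h1 : ∀ δ : γ.ToType, ∃ r ≤ t, ∃ b < a, ForcesEq (oN S (ord δ)) (cN X b) r := by
    intro δ
    have h2 : ForcesMem (oN S (ord δ)) (cN X a) t := (ord_mem δ t).congr_right h.symm
    obtain ⟨r, hr, b, hb, -, heq⟩ := (mem_cN hX).1 h2 t le_rfl
    exact ⟨r, hr, b, hb, heq⟩
  choose r hr b hb heq using h1
  have h2 : Function.Injective fun δ : γ.ToType => ((r δ, ⟨b δ, hb δ⟩) : S × Set.Iio a) := by
    intro δ δ' h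
    have h3 : r δ = r δ' := congrArg Prod.fst h
    have h4 : b δ = b δ' := congrArg (fun t => t.2.1) h
    have h5 := heq δ'
    rw [← h3, ← h4] at h5
    have h6 := (heq δ).trans h5.symm
    rwa [oN_eq_oN, FcU.ord_inj] at h6
  have h3 := mk_le_of_injective h2
  rw [mk_prod, lift_id, lift_id, mk_toType] at h3
  rw [lt_ord]
  exact h3.trans_lt (mul_lt_of_lt hκ hS (mk_Iio_toType_ord_lt a))

include hX in
theorem large_ord (hκ : ℵ₀ ≤ κ) (hS : #S < κ) (kj : ℕ → Cardinal.{0})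
    (hkj' : ∀ μ < κ, ∃ j, μ ≤ kj j) (hlim : ∀ μ < κ, succ μ < κ) {s : S} (hB : Big kj X s)
    (t : S) (ht : t ≤ s) (γ : Ordinal.{0}) (h : ForcesEq (cA X) (oN S γ) t) : κ.ord ≤ γ := by
  by_contra hcon
  rw [not_le, lt_ord] at hcon
  obtain ⟨j, hj⟩ := hkj' _ (hlim _ (mul_lt_of_lt hκ hS hcon))
  obtain ⟨u, hu, h1⟩ := hB t ht j
  have h2 : ∀ x : {x | X x u}, ∃ r ≤ u, ∃ δ : γ.ToType,
      ForcesEq (cN X x.1) (oN S (ord δ)) r := by
    intro x
    have h3 : ForcesMem (cN X x.1) (oN S γ) u :=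
      (mem_imN_of (X := X) (x := cN X) x.2).congr_right (h.mono hu)
    rw [oN_def'] at h3
    obtain ⟨r, hr, δ, hδ⟩ := mem_ck.1 h3 u le_rfl
    exact ⟨r, hr, δ, hδ⟩
  choose r hr δ hδ using h2
  have h3 : Function.Injective fun x : {x | X x u} => ((r x, δ x) : S × γ.ToType) := by
    intro x x' h
    have h3 : r x = r x' := congrArg Prod.fst h
    have h4 : δ x = δ x' := congrArg Prod.snd h
    have h5 := hδ x'
    rw [← h3, ← h4] at h5
    have h6 := (hδ x).trans h5.symm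
    exact Subtype.ext (cN_inj hX ((hX _).mono (hr x) x.2) ((hX _).mono (hr x) x'.2) h6)
  have h4 := mk_le_of_injective h3
  rw [mk_prod, lift_id, lift_id, mk_toType] at h4
  exact absurd ((hj.trans h1).trans h4) (not_le.2 (lt_succ _))

end Large

section Omega1

variable {P R : Type} [Preorder P] [OrderTop P] [Preorder R] [OrderTop R]
  (hP : CCC P) (hR : SigmaClosed R)
  {X : (ℵ₁ : Cardinal.{0}).ord.ToType → P × R → Prop} (hX : ∀ a, Reg (X a))

theorem countable_Iic_W1 (a : (ℵ₁ : Cardinal.{0}).ord.ToType) : Countable {b // b ≤ a} := by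
  have h1 : #(Set.Iio a) < ℵ₁ := mk_Iio_toType_ord_lt a
  have h2 : (Set.Iio a).Countable := (countable_iff_lt_aleph_one _).2 h1
  have h3 : (Set.Iic a).Countable := by
    rw [← Set.Iio_union_right]
    exact h2.union (Set.countable_singleton a)
  exact h3.to_subtype

include hP hR hX in
theorem small_w1 (a : (ℵ₁ : Cardinal.{0}).ord.ToType) (t : P × R) (γ : Ordinal.{0})
    (h : ForcesEq (cN X a) (oN (P × R) γ) t) : γ < w1 := by
  by_contra hcon
  rw [not_lt] at hcon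
  have := countable_Iic_W1 a
  have : Nonempty {b // b ≤ a} := ⟨⟨a, le_rfl⟩⟩
  obtain ⟨r, hr, γ', hγ', h1⟩ := bd hP hR
    (fun (b : {b // b ≤ a}) (δ : Ordinal.{0}) (u : P × R) => 
      ForcesEq (cN X b.1) (oN (P × R) δ) u)
    (fun i δ u v hv h => h.mono hv)
    (fun i δ δ' u h h' => by
      have h2 := h.symm.trans h'
      rwa [oN_eq_oN] at h2) t.1 t.2
  have h2 : ((t.1, r) : P × R) ≤ t := ⟨le_rfl, hr⟩
  have h3 : ForcesMem (oN (P × R) γ') (cN X a) (t.1, r) :=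
    (oN_mem_oN_of_lt (hγ'.trans_le hcon) _).congr_right (h.mono h2).symm
  obtain ⟨u, hu, b, hb, -, heq⟩ := (mem_cN hX).1 h3 _ le_rfl
  exact lt_irrefl _ (h1 ⟨b, hb.le⟩ u hu γ' hγ' heq.symm)

include hP hR hX in
theorem large_w1 {s : P × R}
    (hB : ∀ t ≤ s, ∀ γ : (ℵ₁ : Cardinal.{0}).ord.ToType, ∃ u ≤ t, ∃ a, γ < a ∧ X a u)
    (t : P × R) (ht : t ≤ s) (γ : Ordinal.{0}) (h : ForcesEq (cA X) (oN (P × R) γ) t) :
    w1 ≤ γ := by
  by_contra hcon
  rw [not_le] at hcon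
  have h0 : Order.succ γ < w1 := (isSuccLimit_ord (aleph0_lt_aleph_one.le)).succ_lt hcon
  have : Countable (Order.succ γ).ToType := by
    rw [← mk_le_aleph0_iff, mk_toType, ← lt_succ_iff, succ_aleph0]
    exact lt_ord.1 h0
  have : Nonempty (Order.succ γ).ToType := by
    obtain ⟨i, -⟩ := exists_ord (Order.lt_succ γ)
    exact ⟨i⟩
  obtain ⟨r, hr, γ', hγ', h1⟩ := bd hP hR
    (fun (δ : (Order.succ γ).ToType) (α : Ordinal.{0}) (u : P × R) =>
      ∃ a : (ℵ₁ : Cardinal.{0}).ord.ToType, ord a = α ∧ X a u ∧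
        ForcesEq (cN X a) (oN (P × R) (ord δ)) u)
    (fun i δ u v hv h => by
      obtain ⟨a, h1, h2, h3⟩ := h
      exact ⟨a, h1, (hX a).mono hv h2, h3.mono hv⟩)
    (fun i δ δ' u h h' => by
      obtain ⟨a, h1, h2, h3⟩ := h
      obtain ⟨a', h1', h2', h3'⟩ := h'
      rw [← h1, ← h1', cN_inj hX h2 h2' (h3.trans h3'.symm)]) t.1 t.2
  have h2 : ((t.1, r) : P × R) ≤ t := ⟨le_rfl, hr⟩
  obtain ⟨a', ha'⟩ := exists_ord hγ'
  obtain ⟨u, hu, a, ha, hau⟩ := hB _ (h2.trans ht) a'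
  have h3 : ForcesMem (cN X a) (oN (P × R) γ) u :=
    (mem_imN_of (X := X) (x := cN X) hau).congr_right (h.mono (hu.trans h2))
  rw [oN_def'] at h3
  obtain ⟨v, hv, δ, hδ⟩ := mem_ck.1 h3 u le_rfl
  obtain ⟨δ', hδ'⟩ := exists_ord ((ord_lt δ).trans (Order.lt_succ γ))
  have h4 := h1 δ' v (hv.trans hu) (ord a) (ord_lt a) ⟨a, rfl, (hX a).mono hv hau, by
    rw [hδ']
    exact hδ⟩
  rw [← ha', FcU.ord_lt_ord] at h4
  exact lt_irrefl _ (h4.trans ha)

end Omega1

end Pool.Agent.helper60.POS
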