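import Mathlib
import Pool.Agent.helper60.POS.Size
import Pool.Agent.helper60.POS.AlephOm
import Pool.Agent.helper12.POS.A
import Pool.Agent.helper12.POS.G2
import Pool.Agent.helper91.POS.E
import Pool.Agent.helper79.POS.F
import Pool.Agent.helper6.POS.G
import Pool.Agent.helper40.POS.H
import Pool.Agent.helper80.POS.B

set_option autoImplicit false
set_option linter.unusedSectionVars false

/-!
# The polarized relation in the extension
-/

open FirstOrder FirstOrder.Language Cardinal Order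

namespace Pool.Agent.helper60.POS

open Pool.Agent.helper60.FcU Pool.Agent.helper60.PR

section

variable {S : Type} [Preorder S] [OrderTop S] {s : S}

theorem imN_sub {I : Type} {X : I → S → Prop} (hX : ∀ a, Reg (X a)) {x : I → Name S}
    {c : Name S} (hx : ∀ a t, ForcesMem (x a) c t) {z : Name S} (hz : ForcesMem z (imN X x) s) :
    ForcesMem z c s := by
  refine (ForcesMem.reg _ _).dense fun q hq => ?_
  obtain ⟨r, hr, b, -, heq⟩ := (mem_imN hX).1 hz q hq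
  exact ⟨r, hr, (hx b r).congr_left heq.symm⟩

/-- A ground model set of the right cardinality. -/
theorem equip_ck {κ : Cardinal.{0}} {I : Type} (hI : #I = κ) (x : I → Name S)
    (hx : ∀ a b s, ForcesEq (x a) (x b) s → a = b) (s : S) :
    ∀ q ≤ s, ∃ r ≤ q, ∃ f, FFun f (ck x) (oN S κ.ord) r ∧ FInj f r ∧
      FSurj f (ck x) (oN S κ.ord) r := by
  intro q _
  have h : #I = #κ.ord.ToType := by rw [hI, mk_ord_toType]
  obtain ⟨e⟩ := Cardinal.eq.1 h
  refine ⟨q, le_rfl, grN x (fun a => oN S (ord (e a))), ?_, ?_, ?_⟩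
  · refine ffun_grN (fun a r => ord_mem _ r) fun a b r hab => ?_
    rw [hx a b r hab]
    exact ForcesEq.refl _ _
  · refine inj_grN fun a b r hab => ?_
    rw [oN_eq_oN, FcU.ord_inj] at hab
    rw [e.injective hab]
    exact ForcesEq.refl _ _
  · rw [oN_def' κ.ord]
    refine surj_grN fun k => ?_
    exact ⟨e.symm k, fun r => by
      rw [Equiv.apply_symm_apply]
      exact ForcesEq.refl _ _⟩

theorem oN_ord_inj {o : Ordinal.{0}} (a b : o.ToType) (s : S)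
    (h : ForcesEq (oN S (ord a)) (oN S (ord b)) s) : a = b := by
  rwa [oN_eq_oN, FcU.ord_inj] at h

end

theorem aleph_nat_strictMono : StrictMono fun j : ℕ => ℵ_ (j : Ordinal.{0}) := by
  intro i j h
  exact aleph_lt_aleph.2 (by exact_mod_cast h)

theorem exists_le_aleph_nat {μ : Cardinal.{0}} (h : μ < aw) : ∃ j : ℕ, μ ≤ ℵ_ (j : Ordinal.{0}) := by
  rcases lt_or_ge μ ℵ₀ with h0 | h0
  · exact ⟨0, by simpa using h0.le⟩
  · obtain ⟨n, rfl⟩ := exists_nat_of_lt_aw h h0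
    exact ⟨n, le_rfl⟩

/-- The positive polarized relation is forced. -/
theorem fo_polP (hGCH : ∀ μ : Cardinal.{0}, ℵ₀ ≤ μ → 2 ^ μ = succ μ) (hCC : AlgChang aw)
    {D : W2 → W1 → ℕ → Set (Cnd W2 W1)} (hD : Book D)
    (hS : #(Pos D × Ctp W1 W2) ≤ succ ℵ₁) (hR : #(ℕ → Ctp W1 W2 → Ctp W1 W2) ≤ aw) {n : ℕ}
    {xs : Fin n → Name (Pos D × Ctp W1 W2)} {k l o : Fin n} (hk : xs k = oN _ aw.ord)
    (hl : xs l = oN _ (succ aw).ord) (ho : xs o = oN _ w1) (p : Pos D × Ctp W1 W2) :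
    Fo (fPol k l k k l o) xs p := by
  have hP : CCC (Pos D) := Pos.ccc D
  have hSaw : #(Pos D × Ctp W1 W2) < aw := hS.trans_lt succ_aleph1_lt_aw
  unfold fPol
  rw [fo_all]
  intro Dn
  rw [fo_or]
  intro q hq
  by_contra hcon
  push Not at hcon
  -- no homogeneous sets of the first kind
  have H : ∀ X : aw.ord.ToType → Pos D × Ctp W1 W2 → Prop, (∀ x, Reg (X x)) → ∀ s ≤ q,
      Big (fun j : ℕ => ℵ_ (j : Ordinal.{0})) X s → ∀ B : Set (succ aw).ord.ToType, #B = succ aw →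
        ∃ x, ∃ y ∈ B, ∃ t ≤ s, X x t ∧ ForcesMem (opN (oN _ (ord x)) (oN _ (ord y))) Dn t := by
    intro X hX s hs hB B hBc
    by_contra hno
    push Not at hno
    refine (hcon s hs).1 ?_
    refine fo_ex_of (imN X fun x => oN _ (ord x)) ?_
    refine fo_ex_of (ck fun y : B => oN _ (ord y.1)) ?_
    unfold fHom0
    simp only [fo_and, fo_sub, fo_equip, fo_ball, fo_not, fo_app, sn_up, sn_nw]
    rw [hk, hl]
    refine ⟨fun z t ht hz => imN_sub hX (fun a t => ord_mem a t) hz, fun z t ht hz => ?_, ?_, ?_,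
      fun z t ht hz z' t' ht' hz' u hu hD => ?_⟩
    · refine (ForcesMem.reg _ _).dense fun r hr => ?_
      obtain ⟨u, hu, i, hi⟩ := mem_ck.1 hz r hr
      exact ⟨u, hu, (ord_mem i.1 u).congr_left hi.symm⟩
    · exact exists_equip hX (fun a b t h => oN_ord_inj a b t h)
        (fun a t _ γ _ h => small_ord hX aleph0_le_aw hSaw a t γ h)
        (fun t ht γ h => large_ord hX aleph0_le_aw hSaw _ (fun μ hμ => exists_le_aleph_nat hμ)
          (fun μ hμ => succ_lt_aw hμ) hB t ht γ h)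
    · exact equip_ck hBc _ (fun a b t h => Subtype.ext (oN_ord_inj a.1 b.1 t h)) s
    · obtain ⟨v, hv, x, hx, heq⟩ := (mem_imN hX).1 (hz.mono (hu.trans ht')) u le_rfl
      obtain ⟨w, hw, y, heq'⟩ := mem_ck.1 (hz'.mono (hv.trans hu)) v le_rfl
      refine hno x y.1 y.2 w ?_ ((hX x).mono hw hx) ?_
      · exact ((((hw.trans hv).trans hu).trans ht').trans ht)
      · exact (hD.mono (hw.trans hv)).congr_left (opN_congr (heq.mono hw) heq')
  obtain ⟨C, hC, hCF⟩ := exists_family (κ := aw) (K := aw.ord.ToType)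
    (L := (succ aw).ord.ToType) (mk_ord_toType _) (mk_ord_toType _)
    (fun j : ℕ => ℵ_ (j : Ordinal.{0})) aleph_nat_lt_aw (fun μ hμ => exists_le_aleph_nat hμ)
    aleph_nat_strictMono.monotone (fun μ hμ => succ_lt_aw hμ) aleph0_lt_aw hSaw
    (fun x y s => ForcesMem (opN (oN _ (FcU.ord x)) (oN _ (FcU.ord y))) Dn s)
    (fun x y => ForcesMem.reg _ _) q H
  obtain ⟨𝒴, h𝒴1, h𝒴2, h𝒴3⟩ := exists_bounded aleph0_lt_aw (fun μ hμ => two_power_lt_aw hGCH hμ)
    (fun j : ℕ => ℵ_ (j : Ordinal.{0})) aleph_nat_lt_aw (fun μ hμ => exists_le_aleph_nat hμ)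
    aleph_nat_strictMono (by simp)
  obtain ⟨r, hr, N, Z, hNC, hN, hZ𝒴, hZ, hNZ⟩ := chang_step aleph0_le_aw hCC hP
    Ctp.sigmaClosed hR 𝒴 h𝒴1 (fun j : ℕ => ℵ_ (j : Ordinal.{0})) C hC
    (fun x y s => ForcesMem (opN (oN _ (FcU.ord x)) (oN _ (FcU.ord y))) Dn s)
    (fun x y => ForcesMem.reg _ _) q.1 q.2 (by
      intro F hF j t ht
      obtain ⟨u, hu, h1⟩ := hCF F hF t ht (j + 1)
      obtain ⟨Y, hY, hYT, hYj⟩ := h𝒴3 _ j h1
      exact ⟨u, hu, Y, hY, hYj, fun x hx y hy => hYT hx y hy⟩)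
  obtain ⟨i, y, b, hb, hyZ, hbN, h1, h2⟩ := star hD mk_W1 (fun j : ℕ => ℵ_ (j : Ordinal.{0}))
    (fun x y s => ForcesMem (opN (oN _ (FcU.ord x)) (oN _ (FcU.ord y))) Dn s)
    (fun x y => ForcesMem.reg _ _) q.1 r N Z hN hZ hNZ
  obtain ⟨s, hs, e, he⟩ := exists_unbounded (Ctp.sigmaClosed (A := W1) (B := W2)) q.1 r i
  have hrq : ((q.1, r) : Pos D × Ctp W1 W2) ≤ q := ⟨le_rfl, hr⟩
  have hsq : s ≤ q := hs.trans hrq
  -- the names
  let XA : aw.ord.ToType → Pos D × Ctp W1 W2 → Prop := fun x s =>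
    ∀ q ≤ s, ∃ r ≤ q, ∃ n ∈ r.1.raw.s i, n ∉ e ∧ x ∈ y n
  let BB : W1 → Pos D × Ctp W1 W2 → Prop := fun a s =>
    ∀ t ≤ s, ∃ u ≤ t, ∃ v ≤ ((q.1, r) : Pos D × Ctp W1 W2), u ≤ v ∧ a ∈ v.1.raw.F i ∧
      v.1.raw.s i ⊆ e
  have hXA : ∀ x, Reg (XA x) := fun x => Reg.dens
  have hBB : ∀ a, Reg (BB a) := fun a => Reg.dens
  refine (hcon s hsq).2 ?_
  refine fo_ex_of (imN XA fun x => oN _ (ord x)) ?_
  refine fo_ex_of (imN BB fun a => oN _ (ord (b a))) ?_
  unfold fHom1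
  simp only [fo_and, fo_sub, fo_equip, fo_ball, fo_app, sn_up, sn_nw]
  rw [hk, hl, ho]
  refine ⟨fun z t ht hz => imN_sub hXA (fun a t => ord_mem a t) hz,
    fun z t ht hz => imN_sub hBB (fun a t => ord_mem _ t) hz, ?_, ?_,
      fun z t ht hz z' t' ht' hz' => ?_⟩
  · refine exists_equip hXA (fun a b t h => oN_ord_inj a b t h)
      (fun a t _ γ _ h => small_ord hXA aleph0_le_aw hSaw a t γ h)
      (fun t ht γ h => large_ord hXA aleph0_le_aw hSaw (fun j : ℕ => ℵ_ (j : Ordinal.{0}))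
        (fun μ hμ => exists_le_aleph_nat hμ) (fun μ hμ => succ_lt_aw hμ) (s := s) ?_ t ht γ h)
    intro t ht j
    -- a level above the levels of all elements of `e`
    have h3 : ∃ m : ℕ, ∀ n ∈ e, #(y n) < ℵ_ (m : Ordinal.{0}) := by
      have h4 : ∀ n, ∃ m : ℕ, #(y n) ≤ ℵ_ (m : Ordinal.{0}) := fun n =>
        exists_le_aleph_nat (h𝒴2 _ (hZ𝒴 (hyZ n)))
      choose g hg using h4
      refine ⟨e.sup g + 1, fun n hn => (hg n).trans_lt (aleph_nat_strictMono ?_)⟩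
      exact Nat.lt_succ_of_le (Finset.le_sup hn)
    obtain ⟨m, hm⟩ := h3
    obtain ⟨u, hu, n, hn, hn'⟩ := h1 t (ht.trans hs) (max j m)
    refine ⟨u, hu, (aleph_nat_strictMono.monotone (le_max_left j m)).trans
      (hn'.trans (mk_le_mk_of_subset fun x hx => ?_))⟩
    intro v hv
    refine ⟨v, le_rfl, n, Pos.s_mono hv.1 i hn, fun hne => ?_, hx⟩
    exact absurd (hm n hne) (not_lt.2
      ((aleph_nat_strictMono.monotone (le_max_right j m)).trans hn'))
  · exact exists_equip hBB (fun a a' t h => hb (oN_ord_inj _ _ t h))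
      (fun a t _ γ _ h => small_w1 hP Ctp.sigmaClosed hBB a t γ h)
      (fun t ht γ h => large_w1 hP Ctp.sigmaClosed hBB (s := s) (fun t ht γ => by
        obtain ⟨u, hu, a, ha, v, hv, huv, h5, h6⟩ := he t ht γ
        exact ⟨u, hu, a, ha, fun w hw => ⟨w, le_rfl, v, hv, hw.trans huv, h5, h6⟩⟩) t ht γ h)
  · refine (ForcesMem.reg _ _).dense fun u hu => ?_
    obtain ⟨v, hv, x, hx, heq⟩ := (mem_imN hXA).1 (hz.mono (hu.trans ht')) u le_rfl
    obtain ⟨w, hw, a, ha, heq'⟩ := (mem_imN hBB).1 (hz'.mono (hv.trans hu)) v le_rfl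
    obtain ⟨w₁, hw₁, v₁, hv₁, hwv, ha1, ha2⟩ := ha w le_rfl
    obtain ⟨w₂, hw₂, n, hn, hne, hxn⟩ := hx w₁ (hw₁.trans hw)
    have h3 := h2 a n v₁ w₂ hv₁ (hw₂.trans hwv) ha1 (fun h => hne (ha2 h)) hn x hxn
    have h4 : w₂ ≤ w := hw₂.trans hw₁
    exact ⟨w₂, (h4.trans hw).trans hv, h3.congr_left
      (opN_congr (heq.mono (h4.trans hw)).symm (heq'.mono h4).symm)⟩

end Pool.Agent.helper60.POS
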