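import Mathlib
import Pool.Agent.helper60.FcU.ZFCModel
import Pool.Agent.helper60.PR.FinalB
import Pool.Agent.helper60.POS.PolP

set_option autoImplicit false

/-!
# The model in which the polarized relation holds
-/

open FirstOrder FirstOrder.Language Cardinal Order

namespace Pool.Agent.helper60.POS

open Pool.Agent.helper60.FcU Pool.Agent.helper60.PR

theorem mk_fun_le (hGCH : ∀ μ : Cardinal.{0}, ℵ₀ ≤ μ → 2 ^ μ = succ μ) :
    #(ℕ → Ctp W1 W2 → Ctp W1 W2) ≤ aw := by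
  have h0 : ℵ₀ ≤ (succ ℵ₁ : Cardinal.{0}) := aleph0_lt_aleph_one.le.trans (le_succ _)
  have h1 : #(Ctp W1 W2) ≤ succ ℵ₁ := Ctp.mk_le hGCH mk_W1 mk_W2
  have h2 : #(Ctp W1 W2 → Ctp W1 W2) ≤ 2 ^ (succ ℵ₁ : Cardinal.{0}) := by
    rw [mk_arrow, lift_id]
    refine (power_le_power_right h1).trans ?_
    refine (power_le_power_left (succ_ne_zero _) h1).trans ?_
    rw [power_self_eq h0]
  have h3 : (2 : Cardinal.{0}) ^ (succ ℵ₁ : Cardinal.{0}) < aw :=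
    two_power_lt_aw hGCH succ_aleph1_lt_aw
  rw [mk_arrow, lift_id, lift_id, mk_nat]
  refine (power_le_power_right h2).trans ?_
  rw [← power_mul, mul_eq_left h0 h0 aleph0_ne_zero]
  exact h3.le

theorem fo_mainP (hGCH : ∀ μ : Cardinal.{0}, ℵ₀ ≤ μ → 2 ^ μ = succ μ) (hCC : AlgChang aw)
    {D : W2 → W1 → ℕ → Set (Cnd W2 W1)} (hD : Book D) (xs : Fin 0 → Name (Pos D × Ctp W1 W2))
    (p : Pos D × Ctp W1 W2) : Fo fMainP xs p := by
  have hP : CCC (Pos D) := Pos.ccc D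
  have h0 : ℵ₀ ≤ (succ ℵ₁ : Cardinal.{0}) := aleph0_lt_aleph_one.le.trans (le_succ _)
  have h1 : #(Pos D) ≤ succ ℵ₁ :=
    Cnd.mk_le h0 mk_W2.le (mk_W1.le.trans (le_succ _))
  have hS : #(Pos D × Ctp W1 W2) ≤ succ ℵ₁ := by
    rw [mk_prod, lift_id, lift_id]
    exact (mul_le_mul' h1 (Ctp.mk_le hGCH mk_W1 mk_W2)).trans (mul_eq_self h0).le
  unfold fMainP
  refine fo_ex_of (oN _ Ordinal.omega0) ?_
  refine fo_ex_of (oN _ w1) ?_
  refine fo_ex_of (oN _ aw.ord) ?_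
  refine fo_ex_of (oN _ (succ aw).ord) ?_
  rw [fo_and, fo_and, fo_and, fo_and, fo_and]
  refine ⟨fo_isOmega (by simp only [sn_up, sn_nw]), ?_, ?_, ?_, ?_, ?_⟩
  · exact fo_gchS hGCH hP hS (fun p pw h => fOnto_pow_omega hGCH hP h1 p pw h)
      (by simp only [sn_up, sn_nw]) p
  · rw [fo_next]
    simp only [sn_up, sn_nw]
    exact fNext_omega hP p
  · exact fo_alephOmega hP hS (by simp only [sn_up, sn_nw]) (by simp only [sn_up, sn_nw]) p
  · rw [fo_next]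
    simp only [sn_up, sn_nw]
    exact fNext_ord hS succ_aleph1_lt_aw.le p
  · exact fo_polP hGCH hCC hD hS (mk_fun_le hGCH) (by simp only [sn_up, sn_nw])
      (by simp only [sn_nw]) (by simp only [sn_up, sn_nw]) p

/-- The model. -/
theorem exists_model_pos (hGCH : ∀ μ : Cardinal.{0}, ℵ₀ ≤ μ → 2 ^ μ = succ μ)
    (hCC : ChangConj aw ℵ₀) :
    ∃ (M : Type) (E : M → M → Prop), Countable M ∧ IsZFC E ∧ ∃ w o k l : M,
      PR.Sem.IsOmega E w ∧ PR.Sem.GCH E w ∧ PR.Sem.Next E w o ∧ Sem.IsAlephOmega E w k ∧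
        PR.Sem.Next E k l ∧ PR.Sem.Pol E k l k k l o := by
  obtain ⟨D, hD⟩ := exists_book hGCH
  obtain ⟨G⟩ := exists_gen (nameUniv_univ (P := Pos D × Ctp W1 W2)) ⊤
  have hZ : IsZFC G.E := G.isZFC
  have h := G.of_forces (fun xs _ => fo_mainP hGCH (algChang_of hCC) hD xs ⊤) Fin.elim0
  rw [sat_mainP] at h
  exact ⟨G.M, G.E, G.surj.countable, hZ, h⟩

end Pool.Agent.helper60.POS
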